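import Pool.Agent.H529R3.Gap.Alt

/-!
# `NE = coNE` without `NP = coNP`

If `NP^A = coNP^A`, then, by padding, `NE^A = coNE^A`. How often does the conclusion hold without
the hypothesis? For every gauge `f`, the set of the oracles `A` with `NE^A = coNE^A` and
`NP^A ≠ coNP^A`, and the set of the oracles with `NE^A = coNE^A` and `NP^A ⊄ coNP^A/poly`, are null
sets for `f` if and only if for every `ε > 0` there are infinitely many `N` with
`f N ≤ ε log log N`. (The oracles with `NP^A = coNP^A` are a null set for much greater gauges.)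
-/

set_option autoImplicit false

namespace Pool.Agent.Results.MP_64fb07_lc.GaugeNpGap

open Pool.Agent.NPC Pool.Agent.H620R2.Gauge Pool.Agent.H622R2.Exp

theorem result (f : ℕ → ℝ) :
    (∀ O : Set Oracle,
      (∀ A : Oracle, (∀ L, InNTime Lin A L ↔ InNTime Lin A Lᶜ) →
        (∃ L, IsNP A L ∧ ¬ WithAdvice (IsNP A) Lᶜ) → A ∈ O) →
      (∀ A ∈ O, ∀ L, InNTime Lin A L ↔ InNTime Lin A Lᶜ) →
      (Null f O ↔ ∀ ε : ℝ, 0 < ε → ∃ᶠ N : ℕ in Filter.atTop,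
        f N ≤ ε * Real.logb 2 (Real.logb 2 N))) ∧
    (Null f {A : Oracle | (∀ L, InNTime Lin A L ↔ InNTime Lin A Lᶜ) ∧
        ¬ ∀ L, IsNP A L ↔ IsNP A Lᶜ} ↔
      ∀ ε : ℝ, 0 < ε → ∃ᶠ N : ℕ in Filter.atTop,
        f N ≤ ε * Real.logb 2 (Real.logb 2 N)) ∧
    (Null f {A : Oracle | (∀ L, InNTime Lin A L ↔ InNTime Lin A Lᶜ) ∧
        ∃ L, IsNP A L ∧ ¬ WithAdvice (IsNP A) Lᶜ} ↔
      ∀ ε : ℝ, 0 < ε → ∃ᶠ N : ℕ in Filter.atTop,
        f N ≤ ε * Real.logb 2 (Real.logb 2 N)) := by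
  refine ⟨fun O => H529R3.Gap.gap_co f O, H529R3.Gap.gap_co f _ ?_ fun A hA => hA.1,
    H529R3.Gap.gap_co f _ ?_ fun A hA => hA.1⟩
  · rintro A hA ⟨L, hL, hL'⟩
    exact ⟨hA, fun h => hL' ((h L).1 hL).withAdvice⟩
  · exact fun A hA hL => ⟨hA, hL⟩

end Pool.Agent.Results.MP_64fb07_lc.GaugeNpGap
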