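import Pool.Agent.H249R3.Gau.NE

/-!
# How many oracles make `NE` closed under complements?

For every gauge `f`, the set of the oracles `A` with `NE^A = coNE^A` is a null set for `f` if and
only if for every `ε > 0` there are infinitely many `N` with `f N ≤ ε log log N`. The same holds for
the set of the oracles with `E^A ≠ NE^A = coNE^A`.
-/

set_option autoImplicit false

namespace Pool.Agent.Results.MP_64fb07_lc.GaugeThreshold

open Pool.Agent.H620R2.Gauge Pool.Agent.H622R2.Exp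

theorem result (f : ℕ → ℝ) :
    (Null f {A : Oracle | ∀ L, InNTime Lin A L ↔ InNTime Lin A Lᶜ} ↔
      ∀ ε : ℝ, 0 < ε → ∃ᶠ N : ℕ in Filter.atTop, f N ≤ ε * Real.logb 2 (Real.logb 2 N)) ∧
    (Null f {A : Oracle | (∀ L, InNTime Lin A L ↔ InNTime Lin A Lᶜ) ∧
        ¬ ∀ L, InTime Lin A L ↔ InNTime Lin A L} ↔
      ∀ ε : ℝ, 0 < ε → ∃ᶠ N : ℕ in Filter.atTop, f N ≤ ε * Real.logb 2 (Real.logb 2 N)) :=
  Pool.Agent.H249R3.Gau.resNE f

end Pool.Agent.Results.MP_64fb07_lc.GaugeThreshold
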